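import Pool.Agent.H334PI.Mesh
import Pool.Agent.H160R2.SA.Arm

/-!
Critical bond percolation on the square lattice restricted to a half-plane: the probability that `k`
given vertices lie in one open cluster and that this cluster touches a given interval of the boundary,
for every `k ≥ 2`, all positions of the vertices and all intervals. Given that the vertices are in one
cluster, the probability that the cluster touches the interval is, up to a universal constant,
`min 1 (max over the pairs i < j of (H (x i) * H (x j) / G (x i) (x j)) ^ (1/2))`, where `G` is the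
two-point function of the half-plane and `H` is the function of one point and an interval, which is
the power `-5/48` of the height times the power `1/3` of the harmonic measure of the interval. The
resulting functions are exactly covariant under the conformal automorphisms of the half-plane, with
weight `5/48` at the vertices and weight `0` at the ends of the interval.
-/

set_option autoImplicit false

namespace Pool.Agent.Results.MP_35f495_pr.AnchoredClusters

open MeasureTheory Finset

/-- The square lattice: two points of `ℤ²` are adjacent when they differ by one in exactly one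
coordinate. -/
def Z2 : SimpleGraph (ℤ × ℤ) where
  Adj u v := |u.1 - v.1| + |u.2 - v.2| = 1
  symm := ⟨fun u v h => by rw [abs_sub_comm v.1, abs_sub_comm v.2]; exact h⟩
  loopless := ⟨fun u h => by simp at h⟩

/-- Critical bond percolation: every edge of the square lattice is open (`true`) with
probability `1/2`, independently of the other edges. -/
noncomputable def crit : Measure (Z2.edgeSet → Bool) :=
  Measure.infinitePi (fun _ => ProbabilityTheory.bernoulliMeasure true false
    ⟨1/2, by norm_num, by norm_num⟩)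

/-- A vertex as a point of the complex plane. -/
noncomputable def pt (v : ℤ × ℤ) : ℂ := ⟨(v.1 : ℝ), (v.2 : ℝ)⟩

/-- The graph of the open edges with both endpoints in the open upper half-plane. -/
def openGraph (ω : Z2.edgeSet → Bool) : SimpleGraph (ℤ × ℤ) :=
  SimpleGraph.fromEdgeSet
    {e | (∃ h : e ∈ Z2.edgeSet, ω ⟨e, h⟩ = true) ∧ ∀ v ∈ e, 0 < (pt v).im}

/-- The vertices of `X` are in one open cluster of the half-plane. -/
def OneCluster (X : Finset (ℤ × ℤ)) (ω : Z2.edgeSet → Bool) : Prop :=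
  ∀ u ∈ X, ∀ v ∈ X, (openGraph ω).Reachable u v

/-- The open cluster of a vertex of `X` contains one of the vertices `(p, 1), …, (p + l - 1, 1)`. -/
def Touches (p : ℤ) (l : ℕ) (X : Finset (ℤ × ℤ)) (ω : Z2.edgeSet → Bool) : Prop :=
  ∃ v ∈ X, ∃ i : ℤ, p ≤ i ∧ i < p + l ∧ (openGraph ω).Reachable v (i, 1)

/-- The probability that the vertices of `X` are in one open cluster. -/
noncomputable def conn (X : Finset (ℤ × ℤ)) : ℝ := crit.real {ω | OneCluster X ω}

/-- The probability that the vertices of `X` are in one open cluster, which touches the interval. -/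
noncomputable def connI (p : ℤ) (l : ℕ) (X : Finset (ℤ × ℤ)) : ℝ :=
  crit.real {ω | OneCluster X ω ∧ Touches p l X ω}

/-- The two-point function of the half-plane. -/
noncomputable def G (z w : ℂ) : ℝ :=
  ‖z - w‖ ^ (-(5 / 24) : ℝ) * (1 + ‖z - w‖ ^ 2 / (z.im * w.im)) ^ (-(11 / 48) : ℝ)

/-- The harmonic measure of the interval `[s, t]` of the real line, seen from the point `z` of the
upper half-plane: the angle between the directions from `z` to `s` and to `t`, divided by `π`. -/
noncomputable def harm (s t : ℝ) (z : ℂ) : ℝ := Complex.arg ((z - t) / (z - s)) / Real.pi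

/-- The function of one point and an interval. -/
noncomputable def H (s t : ℝ) (z : ℂ) : ℝ := z.im ^ (-(5 / 48) : ℝ) * harm s t z ^ (1 / 3 : ℝ)

/-- The maximum, over the pairs `i < j`, of `(H (z i) * H (z j) / G (z i) (z j)) ^ (1/2)`, capped at
one. -/
noncomputable def R (s t : ℝ) (z : ℕ → ℂ) (k : ℕ) : ℝ :=
  min 1 (⨆ p : {p : Fin k × Fin k // p.1 < p.2},
    Real.sqrt (H s t (z p.1.1) * H s t (z p.1.2) / G (z p.1.1) (z p.1.2)))

/-- The `k`-point functions: the product, over the points `z j` after the first two, of the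
maximum over the pairs `z i, z l` of previous points of
`(G (z j) (z i) * G (z j) (z l) / G (z i) (z l)) ^ (1/2)`. -/
noncomputable def F (z : ℕ → ℂ) (k : ℕ) : ℝ :=
  G (z 0) (z 1) * ∏ j ∈ Ico 2 k, ⨆ p : {p : Fin j × Fin j // p.1 < p.2},
    Real.sqrt (G (z j) (z p.1.1) * G (z j) (z p.1.2) / G (z p.1.1) (z p.1.2))

/-- The functions of `k` points and an interval. -/
noncomputable def FI (s t : ℝ) (z : ℕ → ℂ) (k : ℕ) : ℝ := F z k * R s t z k

/-- The Möbius map `z ↦ (α z + β) / (γ z + δ)` with real coefficients. -/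
noncomputable def mob (α β γ δ : ℝ) (z : ℂ) : ℂ := (α * z + β) / (γ * z + δ)

/-- The same map on the real line. -/
noncomputable def mobR (α β γ δ : ℝ) (s : ℝ) : ℝ := (α * s + β) / (γ * s + δ)

theorem openGraph_adj (ω : Z2.edgeSet → Bool) (u v : ℤ × ℤ) :
    (openGraph ω).Adj u v ↔ H974.Adj (H974.opn ω ∩ TH976.dE TH976.DH) u v := by
  have hvert : ∀ v : ℤ × ℤ, v ∈ TH976.DH ↔ 0 < (pt v).im := fun v => TH976.mod_H.vert v
  unfold openGraph
  rw [SimpleGraph.fromEdgeSet_adj]
  constructor
  · rintro ⟨⟨⟨h, hω⟩, hV⟩, hne⟩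
    have hadj : (H974.openGraph ω).Adj u v := by
      unfold H974.openGraph
      rw [SimpleGraph.fromEdgeSet_adj]
      exact ⟨⟨h, hω⟩, hne⟩
    obtain ⟨e, he, hcase⟩ := (H974.openGraph_adj ω u v).mp hadj
    have hu : u ∈ TH976.DH := (hvert u).mpr (hV u (Sym2.mem_mk_left u v))
    have hv : v ∈ TH976.DH := (hvert v).mpr (hV v (Sym2.mem_mk_right u v))
    refine ⟨e, ⟨he, ?_⟩, hcase⟩
    rcases hcase with ⟨h1, h2⟩ | ⟨h1, h2⟩
    · exact ⟨by rw [h1]; exact hu, by rw [h2]; exact hv⟩
    · exact ⟨by rw [h1]; exact hv, by rw [h2]; exact hu⟩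
  · rintro ⟨e, ⟨he, hV⟩, hcase⟩
    have hadj : (H974.openGraph ω).Adj u v := (H974.openGraph_adj ω u v).mpr ⟨e, he, hcase⟩
    unfold H974.openGraph at hadj
    rw [SimpleGraph.fromEdgeSet_adj] at hadj
    refine ⟨⟨hadj.1, ?_⟩, hadj.2⟩
    intro w hw
    rw [← hvert]
    rcases Sym2.mem_iff.mp hw with rfl | rfl
    · rcases hcase with ⟨h1, h2⟩ | ⟨h1, h2⟩
      · rw [← h1]; exact hV.1
      · rw [← h2]; exact hV.2
    · rcases hcase with ⟨h1, h2⟩ | ⟨h1, h2⟩
      · rw [← h2]; exact hV.2
      · rw [← h1]; exact hV.1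

theorem reach (ω : Z2.edgeSet → Bool) (u v : ℤ × ℤ) : (openGraph ω).Reachable u v ↔
    H974.Reach (H974.opn ω ∩ TH976.dE TH976.DH) u v := by
  rw [SimpleGraph.reachable_iff_reflTransGen]
  have : (openGraph ω).Adj = H974.Adj (H974.opn ω ∩ TH976.dE TH976.DH) := by
    funext u v
    exact propext (openGraph_adj ω u v)
  rw [this]
  rfl

theorem conn_eq (X : Finset (ℤ × ℤ)) : conn X = TH976.PD TH976.DH (H362P.Cn X) := by
  have h : conn X = (H974.bondLaw H974.hlf).real {ω | OneCluster X ω} := rfl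
  rw [h]
  unfold TH976.PD H362P.Cn OneCluster
  congr 1
  ext ω
  constructor
  · intro h u hu v hv
    exact (reach ω u v).mp (h u hu v hv)
  · intro h u hu v hv
    exact (reach ω u v).mpr (h u hu v hv)

theorem connI_eq (p : ℤ) (l : ℕ) (X : Finset (ℤ × ℤ)) :
    connI p l X = TH976.PD TH976.DH (H334PI.W X (H334PI.Iv p l)) := by
  have h : connI p l X = (H974.bondLaw H974.hlf).real {ω | OneCluster X ω ∧ Touches p l X ω} := rfl
  rw [h]
  unfold TH976.PD H334PI.W H362P.Cn OneCluster Touches
  congr 1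
  ext ω
  constructor
  · rintro ⟨h1, v, hv, i, hi1, hi2, h2⟩
    refine ⟨fun u hu v hv => (reach ω u v).mp (h1 u hu v hv), v, hv, (i, 1), ?_,
      (reach ω v (i, 1)).mp h2⟩
    rw [H334PI.mem_Iv]
    exact ⟨rfl, hi1, hi2⟩
  · rintro ⟨h1, v, hv, i, hi, h2⟩
    rw [H334PI.mem_Iv] at hi
    refine ⟨fun u hu v hv => (reach ω u v).mpr (h1 u hu v hv), v, hv, i.1, hi.2.1, hi.2.2, ?_⟩
    have e : ((i.1, 1) : ℤ × ℤ) = i := by
      rw [← hi.1]
    rw [e]
    exact (reach ω v i).mpr h2

theorem cmp_iff {C a b : ℝ} (h : TH976.Cmp C a b) : C⁻¹ * b ≤ a ∧ a ≤ C * b := by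
  have h0 := h.k0
  refine ⟨?_, h.l⟩
  rw [inv_mul_le_iff₀ h0]
  exact h.r

/-- **Clusters anchored at a boundary interval, critical bond percolation on `ℤ²` in the
half-plane.** There is a constant `C` such that, for `k ≥ 2` distinct vertices `x i` of the
half-plane and the interval of the `l ≥ 1` boundary vertices `(p, 1), …, (p + l - 1, 1)`, i.e. the
interval `[p - 1/2, p + l - 1/2]` of the line:
(1) given that the `x i` are in one open cluster, the probability that this cluster touches the
interval is `R` up to the factor `C`, which does not depend on `k`;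
(2) the probability that the `x i` are in one open cluster which touches the interval is `FI` up to
the factor `C ^ k`;
(3) `FI` is exactly covariant, with weight `5/48` at the points and weight `0` at the ends of the
interval, under the conformal automorphisms of the half-plane whose pole is not in the interval;
(4) for such a map, distinct points `z i` of the half-plane and an interval `[s, t]`, as soon as the
mesh `ε` is small enough, the probability for vertices at distance at most `2ε` from the `z i` and an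
interval with ends at distance at most `2ε` from `s` and `t` agrees, up to the factor `C ^ k`, with
the product of the `|φ' (z i)| ^ (5/48)` times the probability for vertices near the images of the
`z i` and an interval with ends near the images of `s` and `t`. -/
theorem result : ∃ C : ℝ, 1 ≤ C ∧
    (∀ (p : ℤ) (l k : ℕ) (x : ℕ → ℤ × ℤ), 1 ≤ l → 2 ≤ k → (∀ i < k, 0 < (pt (x i)).im) →
      (∀ i < k, ∀ j < k, i ≠ j → x i ≠ x j) →
      C⁻¹ * (R ((p : ℝ) - 1 / 2) ((p : ℝ) + l - 1 / 2) (fun i => pt (x i)) k *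
        conn ((range k).image x)) ≤ connI p l ((range k).image x) ∧
      connI p l ((range k).image x) ≤
        C * (R ((p : ℝ) - 1 / 2) ((p : ℝ) + l - 1 / 2) (fun i => pt (x i)) k *
          conn ((range k).image x))) ∧
    (∀ (p : ℤ) (l k : ℕ) (x : ℕ → ℤ × ℤ), 1 ≤ l → 2 ≤ k → (∀ i < k, 0 < (pt (x i)).im) →
      (∀ i < k, ∀ j < k, i ≠ j → x i ≠ x j) →
      (C ^ k)⁻¹ * FI ((p : ℝ) - 1 / 2) ((p : ℝ) + l - 1 / 2) (fun i => pt (x i)) k ≤
        connI p l ((range k).image x) ∧
      connI p l ((range k).image x) ≤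
        C ^ k * FI ((p : ℝ) - 1 / 2) ((p : ℝ) + l - 1 / 2) (fun i => pt (x i)) k) ∧
    (∀ α β γ δ s t : ℝ, 0 < α * δ - β * γ → s < t → 0 < (γ * s + δ) * (γ * t + δ) →
      ∀ (k : ℕ) (z : ℕ → ℂ), 2 ≤ k → (∀ i < k, 0 < (z i).im) →
      FI s t z k = (∏ i ∈ range k, ‖deriv (mob α β γ δ) (z i)‖ ^ (5 / 48 : ℝ)) *
        FI (mobR α β γ δ s) (mobR α β γ δ t) (fun i => mob α β γ δ (z i)) k) ∧
    (∀ α β γ δ s t : ℝ, 0 < α * δ - β * γ → s < t → 0 < (γ * s + δ) * (γ * t + δ) →
      ∀ (k : ℕ) (z : ℕ → ℂ), 2 ≤ k → (∀ i < k, 0 < (z i).im) →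
      (∀ i < k, ∀ j < k, i ≠ j → z i ≠ z j) →
      ∃ ε₀ : ℝ, 0 < ε₀ ∧ ∀ ε : ℝ, 0 < ε → ε < ε₀ →
        ∀ (x y : ℕ → ℤ × ℤ) (p p' : ℤ) (l l' : ℕ),
        (∀ i < k, ‖(ε : ℂ) * pt (x i) - z i‖ ≤ 2 * ε) →
        |ε * ((p : ℝ) - 1 / 2) - s| ≤ 2 * ε → |ε * ((p : ℝ) + l - 1 / 2) - t| ≤ 2 * ε →
        (∀ i < k, ‖(ε : ℂ) * pt (y i) - mob α β γ δ (z i)‖ ≤ 2 * ε) →
        |ε * ((p' : ℝ) - 1 / 2) - mobR α β γ δ s| ≤ 2 * ε →
        |ε * ((p' : ℝ) + l' - 1 / 2) - mobR α β γ δ t| ≤ 2 * ε →
        (C ^ k)⁻¹ * ((∏ i ∈ range k, ‖deriv (mob α β γ δ) (z i)‖ ^ (5 / 48 : ℝ)) *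
          connI p' l' ((range k).image y)) ≤ connI p l ((range k).image x) ∧
        connI p l ((range k).image x) ≤
          C ^ k * ((∏ i ∈ range k, ‖deriv (mob α β γ δ) (z i)‖ ^ (5 / 48 : ℝ)) *
            connI p' l' ((range k).image y))) := by
  have hA : Pool.Agent.H389R2.CD.ArS := Pool.Agent.H160R2.SA.arSharp
  have hvert : ∀ v : ℤ × ℤ, v ∈ TH976.DH ↔ 0 < (pt v).im := fun v => TH976.mod_H.vert v
  obtain ⟨C1, hC1, h1⟩ := H334PI.main_ratio hA
  obtain ⟨C2, hC2, h2⟩ := H334PI.main_k hA
  have p1 : 0 < C1 := by linarith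
  have p2 : 0 < C2 := by linarith
  have l0 : C2 ≤ C2 * C2 := by nlinarith
  set C := C1 + 4096 * C2 * C2 with hC
  have l1 : C1 ≤ C := by nlinarith
  have l2 : C2 ≤ C := by nlinarith
  have l3 : 4096 * C2 * C2 ≤ C := by nlinarith
  refine ⟨C, by linarith, ?_, ?_, ?_, ?_⟩
  · intro p l k x hl hk hx hd
    have t := h1 p l k x hl hk (fun i hi => (hvert _).mpr (hx i hi)) hd
    rw [← connI_eq, ← conn_eq] at t
    exact cmp_iff (t.weaken l1)
  · intro p l k x hl hk hx hd
    have t := h2 p l k x hl hk (fun i hi => (hvert _).mpr (hx i hi)) hd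
    rw [← connI_eq] at t
    exact cmp_iff (t.weaken (pow_le_pow_left₀ p2.le l2 _))
  · intro α β γ δ s t h hst hp k z hk hz
    exact H334PI.FI_mob h hp hk hz
  · intro α β γ δ s t h hst hp k z hk hz hd
    have t := H334PI.mesh_two (P := connI) (C := C2) (fun p l n x hl hn hx hd => by
      have t := h2 p l n x hl hn hx hd
      rw [← connI_eq] at t
      exact t) h hk hz hd hst hp
    obtain ⟨ε₀, hε, hh⟩ := mem_nhdsGT_iff_exists_Ioo_subset.mp t
    refine ⟨ε₀, hε, ?_⟩
    intro ε e1 e2 x y p p' l l' hx hs ht hy hs' ht'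
    have t2 := hh ⟨e1, e2⟩ x y p p' l l' hx hs ht hy hs' ht'
    exact cmp_iff (t2.weaken (pow_le_pow_left₀ (by positivity) l3 _))

end Pool.Agent.Results.MP_35f495_pr.AnchoredClusters
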