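import Pool.Agent.H67CS.Asm
import Pool.Agent.H160R2.SA.Arm

/-!
Critical bond percolation on the square lattice, in the plane, in a half-plane and in a quadrant:
the probability that `k` given connected sets (points, arcs, curves, discs...) are linked by open
paths inside the domain, up to a factor `C ^ k`, for every `k` and all connected sets; it is given
by an explicit conformally covariant functional of the sets. As a consequence the connection
probabilities of `k` continua, which may touch the boundary of the domain, are conformally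
invariant up to a factor `C ^ k` when the mesh tends to zero.
-/

set_option autoImplicit false

namespace Pool.Agent.Results.MP_35f495_pr.ConnectedSets

open MeasureTheory Finset

/-! ### percolation -/

/-- The square lattice: two points of `ℤ²` are adjacent when they differ by one in exactly one
coordinate. -/
def Z2 : SimpleGraph (ℤ × ℤ) where
  Adj u v := |u.1 - v.1| + |u.2 - v.2| = 1
  symm := ⟨fun u v h => by rw [abs_sub_comm v.1, abs_sub_comm v.2]; exact h⟩
  loopless := ⟨fun u h => by simp at h⟩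

/-- Critical bond percolation: every edge of the square lattice is open (`true`) with
probability `1/2`, independently of the other edges. -/
noncomputable def crit : Measure (Z2.edgeSet → Bool) :=
  Measure.infinitePi (fun _ => ProbabilityTheory.bernoulliMeasure true false
    ⟨1/2, by norm_num, by norm_num⟩)

/-- A vertex as a point of the complex plane. -/
noncomputable def pt (v : ℤ × ℤ) : ℂ := ⟨(v.1 : ℝ), (v.2 : ℝ)⟩

/-- The three domains. -/
inductive Shape
  | plane
  | half
  | quadrant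

/-- The plane, the open upper half-plane and the open quadrant `x > 0, y > 0`. -/
def dom : Shape → Set ℂ
  | .plane => Set.univ
  | .half => {z | 0 < z.im}
  | .quadrant => {z | 0 < z.re ∧ 0 < z.im}

/-- The graph of the open edges with both endpoints in the domain. -/
def openGraph (s : Shape) (ω : Z2.edgeSet → Bool) : SimpleGraph (ℤ × ℤ) :=
  SimpleGraph.fromEdgeSet
    {e | (∃ h : e ∈ Z2.edgeSet, ω ⟨e, h⟩ = true) ∧ ∀ v ∈ e, pt v ∈ dom s}

/-- The vertices of `X` are in the domain and they induce a connected subgraph of the lattice (in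
particular `X` is not empty). -/
def IsConn (s : Shape) (X : Finset (ℤ × ℤ)) : Prop :=
  (∀ v ∈ X, pt v ∈ dom s) ∧ (Z2.induce (X : Set (ℤ × ℤ))).Connected

/-- The probability that the sets `X i` are linked inside the domain: any two of them are joined by
a chain of sets of the family, such that for every two consecutive sets of the chain there is an
open path in the domain from one to the other. (For two sets: there is an open path from one to the
other. For sets with one point: the points are in the same open cluster. In general: the sets are in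
the same cluster when the edges inside each set are declared open.) -/
noncomputable def link (s : Shape) {k : ℕ} (X : Fin k → Finset (ℤ × ℤ)) : ℝ :=
  crit.real {ω | ∀ i j, Relation.ReflTransGen
    (fun p q => ∃ u ∈ X p, ∃ v ∈ X q, (openGraph s ω).Reachable u v) i j}

/-! ### the functional -/

/-- The two-point function of the half-plane. -/
noncomputable def GH (z w : ℂ) : ℝ :=
  ‖z - w‖ ^ (-(5 / 24) : ℝ) * (1 + ‖z - w‖ ^ 2 / (z.im * w.im)) ^ (-(11 / 48) : ℝ)

/-- The two-point functions of the domains. (In Lean `G s z z = 0`, where the natural value is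
infinite; only `1 / G s z z` is used below, and it is `0` in both conventions.) -/
noncomputable def G : Shape → ℂ → ℂ → ℝ
  | .plane, z, w => ‖z - w‖ ^ (-(5 / 24) : ℝ)
  | .half, z, w => GH z w
  | .quadrant, z, w =>
    ‖2 * z‖ ^ (5 / 48 : ℝ) * ‖2 * w‖ ^ (5 / 48 : ℝ) * GH (z ^ 2) (w ^ 2)

open Classical in
/-- The two-point function of two points of the set `A`; it is replaced by `1` if `A` has only one
point. -/
noncomputable def Gin (s : Shape) (A : Set ℂ) (z w : ℂ) : ℝ :=
  if A.Subsingleton then 1 else G s z w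

/-- The supremum, over `z, z'` in `A` and `w, w'` in `B`, of the square root of
`G z w * G z' w' / (G z z' * G w w')` (the factor `G z z'` is left out if `A` has only one point,
the factor `G w w'` is left out if `B` has only one point). In the plane this is the supremum of
`(‖z - z'‖ * ‖w - w'‖ / (‖z - w‖ * ‖z' - w'‖)) ^ (5/48)`. -/
noncomputable def theta (s : Shape) (A B : Set ℂ) : ℝ :=
  ⨆ p : (A × A) × (B × B), Real.sqrt (G s p.1.1 p.2.1 * G s p.1.2 p.2.2 /
    (Gin s A p.1.1 p.1.2 * Gin s B p.2.1 p.2.2))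

open Classical in
/-- The functional of two sets: `theta`, cut off at `1` when both sets have at least two points. -/
noncomputable def Theta (s : Shape) (A B : Set ℂ) : ℝ :=
  if A.Subsingleton ∨ B.Subsingleton then theta s A B else min 1 (theta s A B)

/-- The functional of `k` sets: the sets are added one after the other, each one to the union of the
previous ones, and the maximum over all the orders is taken. -/
noncomputable def Phi (s : Shape) {k : ℕ} (K : Fin k → Set ℂ) : ℝ :=
  ⨆ σ : Equiv.Perm (Fin k), ∏ i : Fin k, if (i : ℕ) = 0 then 1 else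
    Theta s (⋃ j : Fin k, ⋃ _ : j < i, K (σ j)) (K (σ i))

/-! ### conformal maps -/

/-- `φ` is a conformal map from `D` onto `D'`: it is holomorphic on `D` and it has a holomorphic
inverse `ψ` from `D'` to `D`. -/
def Conformal (D D' : Set ℂ) (φ : ℂ → ℂ) : Prop :=
  DifferentiableOn ℂ φ D ∧ Set.MapsTo φ D D' ∧ ∃ ψ : ℂ → ℂ, DifferentiableOn ℂ ψ D' ∧
    Set.MapsTo ψ D' D ∧ (∀ z ∈ D, ψ (φ z) = z) ∧ ∀ w ∈ D', φ (ψ w) = w

/-- The maps: either both domains are the plane, `φ` is a Möbius transformation, and `O = S` is the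
plane without the pole; or both domains are in {half-plane, quadrant}, `φ` is a conformal map from
the domain `O` of the shape `s` onto the domain of the shape `s'`, and `S` is a part of the closed
domain, containing `O`, on which `φ` is continuous and injective. -/
def IsMap (s s' : Shape) (O S : Set ℂ) (φ : ℂ → ℂ) : Prop :=
  (s = .plane ∧ s' = .plane ∧ S = O ∧ ∃ α β γ δ : ℂ, α * δ - β * γ ≠ 0 ∧
    O = {z | γ * z + δ ≠ 0} ∧ φ = fun z => (α * z + β) / (γ * z + δ)) ∨
  (s ≠ .plane ∧ s' ≠ .plane ∧ O = dom s ∧ Conformal (dom s) (dom s') φ ∧ O ⊆ S ∧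
    S ⊆ closure (dom s) ∧ ContinuousOn φ S ∧ Set.InjOn φ S)

/-- The product of the `‖φ' (z i)‖ ^ (5/48)` over the sets `K i = {z i}` with one point. -/
noncomputable def jac {k : ℕ} (φ : ℂ → ℂ) (K : Fin k → Set ℂ) (z : Fin k → ℂ) : ℝ :=
  open Classical in ∏ i, if (K i).Subsingleton then ‖deriv φ (z i)‖ ^ (5 / 48 : ℝ) else 1

/-- At mesh `ε`, the set of vertices `X` approximates `A`: the two sets are at Hausdorff distance at
most `2ε`; if `A` has one point then `X` has one point. -/
def Approx (ε : ℝ) (A : Set ℂ) (X : Finset (ℤ × ℤ)) : Prop :=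
  (∀ x ∈ X, ∃ z ∈ A, ‖(ε : ℂ) * pt x - z‖ ≤ 2 * ε) ∧
    (∀ z ∈ A, ∃ x ∈ X, ‖(ε : ℂ) * pt x - z‖ ≤ 2 * ε) ∧ (A.Subsingleton → X.card = 1)

/-! ### translation -/

/-- the shape, in the library -/
def sh : Shape → H67CS.Sh
  | .plane => .plane
  | .half => .half
  | .quadrant => .quad

theorem dom_eq (s : Shape) : dom s = H67CS.Dm (sh s) := by
  cases s <;> rfl

theorem pt_dom (s : Shape) (v : ℤ × ℤ) : pt v ∈ dom s ↔ v ∈ H67CS.dom (sh s) := by
  rw [dom_eq, H67CS.Dm_vert]
  rfl

theorem openGraph_adj (s : Shape) (ω : Z2.edgeSet → Bool) (u v : ℤ × ℤ) :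
    (openGraph s ω).Adj u v ↔ H974.Adj (H974.opn ω ∩ TH976.dE (H67CS.dom (sh s))) u v := by
  unfold openGraph
  rw [SimpleGraph.fromEdgeSet_adj]
  constructor
  · rintro ⟨⟨⟨h, hω⟩, hV⟩, hne⟩
    have hadj : (H974.openGraph ω).Adj u v := by
      unfold H974.openGraph
      rw [SimpleGraph.fromEdgeSet_adj]
      exact ⟨⟨h, hω⟩, hne⟩
    obtain ⟨e, he, hcase⟩ := (H974.openGraph_adj ω u v).mp hadj
    have hu := (pt_dom s u).mp (hV u (Sym2.mem_mk_left u v))
    have hv := (pt_dom s v).mp (hV v (Sym2.mem_mk_right u v))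
    refine ⟨e, ⟨he, ?_⟩, hcase⟩
    rcases hcase with ⟨h1, h2⟩ | ⟨h1, h2⟩
    · exact ⟨by rw [h1]; exact hu, by rw [h2]; exact hv⟩
    · exact ⟨by rw [h1]; exact hv, by rw [h2]; exact hu⟩
  · rintro ⟨e, ⟨he, hV⟩, hcase⟩
    have hadj : (H974.openGraph ω).Adj u v := (H974.openGraph_adj ω u v).mpr ⟨e, he, hcase⟩
    unfold H974.openGraph at hadj
    rw [SimpleGraph.fromEdgeSet_adj] at hadj
    refine ⟨⟨hadj.1, ?_⟩, hadj.2⟩
    intro w hw
    rw [pt_dom]
    rcases Sym2.mem_iff.mp hw with rfl | rfl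
    · rcases hcase with ⟨h1, h2⟩ | ⟨h1, h2⟩
      · rw [← h1]; exact hV.1
      · rw [← h2]; exact hV.2
    · rcases hcase with ⟨h1, h2⟩ | ⟨h1, h2⟩
      · rw [← h2]; exact hV.2
      · rw [← h1]; exact hV.1

theorem reach_iff (s : Shape) (ω : Z2.edgeSet → Bool) (u v : ℤ × ℤ) :
    (openGraph s ω).Reachable u v ↔
      H974.Reach (H974.opn ω ∩ TH976.dE (H67CS.dom (sh s))) u v := by
  rw [SimpleGraph.reachable_iff_reflTransGen]
  have : (openGraph s ω).Adj = H974.Adj (H974.opn ω ∩ TH976.dE (H67CS.dom (sh s))) := by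
    funext u v
    exact propext (openGraph_adj s ω u v)
  rw [this]
  rfl

theorem link_eq (s : Shape) {k : ℕ} (X : Fin k → Finset (ℤ × ℤ)) :
    link s X = TH976.PD (H67CS.dom (sh s)) (fun F => H67CS.Lf F X) := by
  have h : link s X = (H974.bondLaw H974.hlf).real {ω | ∀ i j, Relation.ReflTransGen
    (fun p q => ∃ u ∈ X p, ∃ v ∈ X q, (openGraph s ω).Reachable u v) i j} := rfl
  rw [h]
  unfold TH976.PD H67CS.Lf
  congr 1
  ext ω
  constructor
  · intro h i j
    refine (Relation.ReflTransGen.mono ?_) _ _ (h i j)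
    rintro p q ⟨u, hu, v, hv, h⟩
    exact ⟨u, hu, v, hv, (reach_iff s ω u v).mp h⟩
  · intro h i j
    refine (Relation.ReflTransGen.mono ?_) _ _ (h i j)
    rintro p q ⟨u, hu, v, hv, h⟩
    exact ⟨u, hu, v, hv, (reach_iff s ω u v).mpr h⟩

theorem conn_cn {X : Finset (ℤ × ℤ)} (h : (Z2.induce (X : Set (ℤ × ℤ))).Connected) :
    H362P.Cn X (↑(H67CS.ein X)) := by
  intro u hu v hv
  have h1 := h.preconnected ⟨u, Finset.mem_coe.mpr hu⟩ ⟨v, Finset.mem_coe.mpr hv⟩
  rw [SimpleGraph.reachable_iff_reflTransGen] at h1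
  have key : ∀ w : (X : Set (ℤ × ℤ)), Relation.ReflTransGen (Z2.induce (X : Set (ℤ × ℤ))).Adj
      ⟨u, Finset.mem_coe.mpr hu⟩ w → H974.Reach (↑(H67CS.ein X)) u w := by
    intro w hw
    induction hw with
    | refl => exact H974.Reach.refl _ _
    | @tail b c _ hs ih =>
      have h2 : H974.sqLattice.Adj b.1 c.1 := hs
      obtain ⟨e, he⟩ := H974.adj_edge h2
      refine ih.trans (H974.Adj.reach ⟨e, ?_, he⟩)
      rw [Finset.mem_coe, H67CS.mem_ein]
      have hb := Finset.mem_coe.mp b.2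
      have hc := Finset.mem_coe.mp c.2
      rcases he with ⟨h3, h4⟩ | ⟨h3, h4⟩
      · rw [h3, h4]; exact ⟨hb, hc⟩
      · rw [h3, h4]; exact ⟨hc, hb⟩
  exact key _ h1

theorem conn_ne {X : Finset (ℤ × ℤ)} (h : (Z2.induce (X : Set (ℤ × ℤ))).Connected) :
    X.Nonempty := by
  obtain ⟨⟨v, hv⟩⟩ := h.nonempty
  exact ⟨v, Finset.mem_coe.mp hv⟩

theorem G_eq (s : Shape) : G s = H67CS.gs (sh s) := by
  cases s <;> rfl

theorem Theta_eq (s : Shape) (A B : Set ℂ) : Theta s A B = H67CS.Th (H67CS.gs (sh s)) A B := by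
  unfold Theta H67CS.Th theta H67CS.th H67CS.rt4 Gin H67CS.gd
  rw [G_eq]

theorem Phi_eq (s : Shape) {k : ℕ} (K : Fin k → Set ℂ) :
    Phi s K = H67CS.Phi (H67CS.gs (sh s)) k K := by
  unfold Phi H67CS.Phi H67CS.Ph
  simp only [Theta_eq]

theorem cs_eq (X : Finset (ℤ × ℤ)) : pt '' (X : Set (ℤ × ℤ)) = H67CS.cs X := rfl

theorem fm {s : Shape} {k : ℕ} {X : Fin k → Finset (ℤ × ℤ)} (h : ∀ i, IsConn s (X i)) :
    H67CS.Fm (sh s) X :=
  ⟨fun i u hu => (pt_dom s u).mp ((h i).1 u hu), fun i => conn_cn (h i).2⟩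

theorem apx {ε : ℝ} {A : Set ℂ} {X : Finset (ℤ × ℤ)} (h : Approx ε A X) : H67CS.Apx ε A X := by
  refine ⟨h.1, h.2.1, fun hs => ?_⟩
  obtain ⟨x, hx⟩ := Finset.card_eq_one.mp (h.2.2 hs)
  rw [hx, Finset.coe_singleton]
  exact Set.subsingleton_singleton

theorem cmp_iff {C a b : ℝ} (h : TH976.Cmp C a b) : C⁻¹ * b ≤ a ∧ a ≤ C * b := by
  have h0 := h.k0
  refine ⟨?_, h.l⟩
  rw [inv_mul_le_iff₀ h0]
  exact h.r

theorem closed_Cl (s : Shape) : IsClosed (H67CS.Cl (sh s)) := by
  cases s
  · exact isClosed_univ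
  · exact isClosed_le continuous_const Complex.continuous_im
  · exact (isClosed_le continuous_const Complex.continuous_re).inter
      (isClosed_le continuous_const Complex.continuous_im)

theorem closure_Cl (s : Shape) : closure (dom s) ⊆ H67CS.Cl (sh s) := by
  rw [dom_eq]
  exact closure_minimal (H67CS.Dm_Cl _) (closed_Cl s)

theorem cv_hq {s s' : Shape} (h1 : s ≠ .plane) (h2 : s' ≠ .plane) {φ : ℂ → ℂ}
    (h : Conformal (dom s) (dom s') φ) : H67CS.Cv (H67CS.gs (sh s)) (H67CS.gs (sh s'))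
      (fun z => ‖deriv φ z‖ ^ (5 / 48 : ℝ)) φ (dom s) := by
  cases s
  · exact absurd rfl h1
  · cases s'
    · exact absurd rfl h2
    · exact H67CS.cv_conf TH976.mod_H TH976.mod_H h
    · exact H67CS.cv_conf TH976.mod_H TH976.mod_Q h
  · cases s'
    · exact absurd rfl h2
    · exact H67CS.cv_conf TH976.mod_Q TH976.mod_H h
    · exact H67CS.cv_conf TH976.mod_Q TH976.mod_Q h

/-- what is used about the maps -/
theorem IsMap.all {s s' : Shape} {O S : Set ℂ} {φ : ℂ → ℂ} (h : IsMap s s' O S φ) :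
    H67CS.Cv (H67CS.gs (sh s)) (H67CS.gs (sh s')) (fun z => ‖deriv φ z‖ ^ (5 / 48 : ℝ)) φ O ∧
    O ⊆ H67CS.Dm (sh s) ∧ Set.MapsTo φ O (H67CS.Dm (sh s')) ∧ O ⊆ S ∧ S ⊆ closure O ∧
    S ⊆ H67CS.Cl (sh s) ∧ ContinuousOn φ S ∧ Set.InjOn φ S ∧
    Set.MapsTo φ S (H67CS.Cl (sh s')) := by
  rcases h with ⟨rfl, rfl, rfl, α, β, γ, δ, hd, rfl, rfl⟩ | ⟨h1, h2, rfl, hc, h3, h4, h5, h6⟩
  · have c := H67CS.cv_mob hd
    refine ⟨c, fun _ _ => trivial, fun _ _ => trivial, subset_rfl, subset_closure,
      fun _ _ => trivial, ?_, c.inj, fun _ _ => trivial⟩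
    apply ContinuousOn.div
    · fun_prop
    · fun_prop
    · intro z hz
      exact hz
  · refine ⟨cv_hq h1 h2 hc, (dom_eq s).le, ?_, h3, h4, h4.trans (closure_Cl s), h5, h6, ?_⟩
    · rw [← dom_eq]
      exact hc.2.1
    · intro z hz
      have q1 : φ z ∈ closure (φ '' dom s) :=
        ((h5 z hz).mono h3).mem_closure_image (h4 hz)
      exact closure_Cl s' (closure_mono hc.2.1.image_subset q1)

theorem jac_eq {k : ℕ} (φ : ℂ → ℂ) (K : Fin k → Set ℂ) (z : Fin k → ℂ) (hz : ∀ i, z i ∈ K i) :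
    ∃ c : Fin k → ℝ, jac φ K z = ∏ i, c i ∧
      ∀ i, H67CS.IsJ (fun z => ‖deriv φ z‖ ^ (5 / 48 : ℝ)) (K i) (c i) := by
  classical
  refine ⟨fun i => if (K i).Subsingleton then ‖deriv φ (z i)‖ ^ (5 / 48 : ℝ) else 1, ?_, ?_⟩
  · unfold jac
    apply Finset.prod_congr rfl
    intro i _
    by_cases h : (K i).Subsingleton
    · rw [if_pos h]
      exact (if_pos h).symm
    · rw [if_neg h]
      exact (if_neg h).symm
  · intro i
    constructor
    · intro hs w hw
      show ‖deriv φ w‖ ^ (5 / 48 : ℝ) =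
        if (K i).Subsingleton then ‖deriv φ (z i)‖ ^ (5 / 48 : ℝ) else 1
      rw [if_pos hs, hs hw (hz i)]
    · intro hs
      exact if_neg hs

/-- **Connection probabilities of connected sets, and their conformal covariance up to
constants**, for critical bond percolation on `ℤ²` in the plane, the half-plane and the quadrant.
There is a constant `C` such that:
(1) the probability that `k` pairwise disjoint finite connected sets of vertices of the domain are
linked by open paths inside the domain is `Phi` up to a factor `C ^ k`, for all `k` and all sets;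
(2) `Phi` is exactly covariant, with weight `5/48` at the sets with one point and exactly invariant
for the other sets, under the conformal maps between the half-plane and the quadrant and under the
Möbius transformations of the plane;
(3) for such a map `φ` and `k` pairwise disjoint compact sets `K i`, which may touch the boundary of
the domain (a set with one point is in the open domain): as soon as the mesh `ε` is small enough,
for all connected sets `X i` and `Y i` of vertices which approximate the `K i` and the `φ (K i)` at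
mesh `ε`, the probability that the `X i` are linked and the product of the `‖φ' (z i)‖ ^ (5/48)`
(over the sets `K i = {z i}`) and of the probability that the `Y i` are linked agree up to a factor
`C ^ k`. -/
theorem result : ∃ C : ℝ, 1 ≤ C ∧
    (∀ (s : Shape) (k : ℕ) (X : Fin k → Finset (ℤ × ℤ)), 1 ≤ k → (∀ i, IsConn s (X i)) →
      (∀ i j, i ≠ j → Disjoint (X i) (X j)) →
      (C ^ k)⁻¹ * Phi s (fun i => pt '' (X i : Set (ℤ × ℤ))) ≤ link s X ∧
      link s X ≤ C ^ k * Phi s (fun i => pt '' (X i : Set (ℤ × ℤ)))) ∧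
    (∀ (s s' : Shape) (O S : Set ℂ) (φ : ℂ → ℂ), IsMap s s' O S φ →
      ∀ (k : ℕ) (K : Fin k → Set ℂ) (z : Fin k → ℂ), 2 ≤ k → (∀ i, K i ⊆ O) →
      (∀ i, z i ∈ K i) → (∀ i j, i ≠ j → Disjoint (K i) (K j)) →
      Phi s K = jac φ K z * Phi s' (fun i => φ '' K i)) ∧
    (∀ (s s' : Shape) (O S : Set ℂ) (φ : ℂ → ℂ), IsMap s s' O S φ →
      ∀ (k : ℕ) (K : Fin k → Set ℂ) (z : Fin k → ℂ), 2 ≤ k → (∀ i, IsCompact (K i)) →
      (∀ i, K i ⊆ S) → (∀ i, (K i).Subsingleton → K i ⊆ O) → (∀ i, z i ∈ K i) →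
      (∀ i j, i ≠ j → Disjoint (K i) (K j)) →
      ∃ ε₀ : ℝ, 0 < ε₀ ∧ ∀ ε : ℝ, 0 < ε → ε < ε₀ → ∀ X Y : Fin k → Finset (ℤ × ℤ),
        (∀ i, IsConn s (X i)) → (∀ i, IsConn s' (Y i)) → (∀ i, Approx ε (K i) (X i)) →
        (∀ i, Approx ε (φ '' K i) (Y i)) →
        (C ^ k)⁻¹ * (jac φ K z * link s' Y) ≤ link s X ∧
        link s X ≤ C ^ k * (jac φ K z * link s' Y)) := by
  have hA : Pool.Agent.H389R2.CD.ArS := Pool.Agent.H160R2.SA.arSharp
  obtain ⟨C, hC, h1, h3⟩ := H67CS.mesh_final hA
  refine ⟨C, hC, ?_, ?_, ?_⟩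
  · intro s k X hk hX hd
    have hF : H67CS.Fam (sh s) k X :=
      ⟨(fm hX).1, fun i => conn_ne (hX i).2, (fm hX).2, hd⟩
    have t := h1 (sh s) k X hk hF
    rw [← link_eq, ← Phi_eq] at t
    exact cmp_iff t
  · intro s s' O S φ hφ k K z hk hK hz hd
    obtain ⟨cv, -⟩ := hφ.all
    obtain ⟨c, hc, hJ⟩ := jac_eq φ K z hz
    rw [Phi_eq, Phi_eq, hc]
    exact H67CS.Phi_cov cv.cw hk hK (fun i _ => hK i) ⟨fun i => ⟨z i, hz i⟩, hd⟩ hJ
  · intro s s' O S φ hφ k K z hk cK hK hKO hz hd
    obtain ⟨a1, a2, a3, a4, a5, a6, a7, a8, a9⟩ := hφ.all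
    obtain ⟨c, hc, hJ⟩ := jac_eq φ K z hz
    have t := h3 (sh s) (sh s') O S φ _ a1 a2 a3 a4 a5 a6 a7 a8 a9 k K c hk hK hKO
      ⟨fun i => ⟨z i, hz i⟩, hd⟩ cK hJ
    obtain ⟨ε₀, hε, h⟩ := mem_nhdsGT_iff_exists_Ioo_subset.mp t
    refine ⟨ε₀, hε, ?_⟩
    intro ε e1 e2 X Y hX hY hx hy
    have t2 := h ⟨e1, e2⟩ X Y (fm hX) (fm hY) (fun i => apx (hx i)) (fun i => apx (hy i))
    rw [← link_eq, ← link_eq, ← hc] at t2
    exact cmp_iff t2

end Pool.Agent.Results.MP_35f495_pr.ConnectedSets
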