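import Mathlib
import Pool.Agent.Helper859_NL.Final

/-!
Critical bond percolation on `ε ℤ²` (`p = 1/2`): the number of interfaces which separate the two
boundary components of a doubly connected domain of the Riemann sphere is asymptotically normal, with
conformally invariant mean and variance, uniformly in the domain and in the mesh.

Colour the open edges and their endpoints in one colour, the dual edges which cross the closed edges
and their endpoints in the other colour, and let `N` be the minimal number of changes of colour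
(`changes`) of a path from one boundary component to the other one; let `M` be the modulus of the
domain. There is one constant `C`, the same for all domains and all meshes, with
`|log E (t ^ N) - 2 π Ψ(t) M| ≤ C |log t|` for `1/2 ≤ t ≤ 2` and `|E N - M / √3| ≤ C`; and the law of
`(N - M / √3) / √M` tends to the normal law with variance `4 / (3 √3) - 1 / π` as `M → ∞`, uniformly in
the domain and in the mesh.
-/

set_option autoImplicit false

namespace Pool.Agent.Results.MP_35f495_pr.InterfaceFluctuations

open MeasureTheory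

open scoped ENNReal

/-- The square lattice: two points of `ℤ²` are adjacent when they differ by one in exactly one
coordinate. -/
def Z2 : SimpleGraph (ℤ × ℤ) where
  Adj u v := |u.1 - v.1| + |u.2 - v.2| = 1
  symm := ⟨fun u v h => by rw [abs_sub_comm v.1, abs_sub_comm v.2]; exact h⟩
  loopless := ⟨fun u h => by simp at h⟩

/-- Critical bond percolation: every edge of the square lattice is open (`true`) with
probability `1/2`, independently of the other edges. -/
noncomputable def crit : Measure (Z2.edgeSet → Bool) :=
  Measure.infinitePi (fun _ => ProbabilityTheory.bernoulliMeasure true false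
    ⟨1/2, by norm_num, by norm_num⟩)

/-- The graph of the open edges. -/
def openGraph (ω : Z2.edgeSet → Bool) : SimpleGraph (ℤ × ℤ) :=
  SimpleGraph.fromEdgeSet {e | ∃ h : e ∈ Z2.edgeSet, ω ⟨e, h⟩ = true}

/-- The points: `((x, y), true)` is the vertex `(x, y)` of `ℤ²` and `((x, y), false)` is the
vertex `(x + 1/2, y + 1/2)` of the dual lattice. -/
abbrev Pt := (ℤ × ℤ) × Bool

/-- The vertex `v` of `ℤ²` is one of the four corners of the square of the dual vertex `w`. -/
def Corner (v w : ℤ × ℤ) : Prop := (v.1 = w.1 ∨ v.1 = w.1 + 1) ∧ (v.2 = w.2 ∨ v.2 = w.2 + 1)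

/-- Moves without change of colour: along an open edge, or from a dual vertex to a neighbouring
dual vertex across a closed edge (the edge between the two common corners of their squares). -/
inductive Free (ω : Z2.edgeSet → Bool) : Pt → Pt → Prop
  | primal {u v : ℤ × ℤ} (h : (openGraph ω).Adj u v) : Free ω (u, true) (v, true)
  | dual {u v x y : ℤ × ℤ} (huv : u ≠ v) (hxy : Z2.Adj x y) (hclosed : ¬ (openGraph ω).Adj x y)
      (h1 : Corner x u) (h2 : Corner y u) (h3 : Corner x v) (h4 : Corner y v) :
      Free ω (u, false) (v, false)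

/-- Change of colour: from a vertex to the dual vertex of one of the four squares around it, or
back. -/
inductive Change : Pt → Pt → Prop
  | out {v w : ℤ × ℤ} (h : Corner v w) : Change (v, true) (w, false)
  | back {v w : ℤ × ℤ} (h : Corner v w) : Change (w, false) (v, true)

/-- The point `p` can be reached from a vertex of `P` with at most `k` changes of colour. -/
inductive Reach (ω : Z2.edgeSet → Bool) (P : Set (ℤ × ℤ)) : ℕ → Pt → Prop
  | start {v : ℤ × ℤ} (h : v ∈ P) (k : ℕ) : Reach ω P k (v, true)
  | free {k : ℕ} {p q : Pt} (h : Reach ω P k p) (hpq : Free ω p q) : Reach ω P k q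
  | change {k : ℕ} {p q : Pt} (h : Reach ω P k p) (hpq : Change p q) : Reach ω P (k + 1) q

/-- The number of interfaces between `P` and `Q`: the minimal number of changes of colour of a path
from a vertex of `P` to a vertex of `Q`. -/
noncomputable def changes (P Q : Set (ℤ × ℤ)) (ω : Z2.edgeSet → Bool) : ℕ :=
  sInf {k | ∃ v ∈ Q, Reach ω P k (v, true)}

/-- The position of the vertex `v` of the lattice `ε ℤ²` in the plane. -/
def pos (ε : ℝ) (v : ℤ × ℤ) : ℂ := ⟨ε * v.1, ε * v.2⟩

/-- The lattice approximation of `K`: the vertices of `ε ℤ²` at distance at most `ε` from `K`. -/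
def near (ε : ℝ) (K : Set ℂ) : Set (ℤ × ℤ) := {v | ∃ z ∈ K, dist (pos ε v) z ≤ ε}

/-- The Dirichlet energy: the integral over the plane of the square of the norm of the gradient. -/
noncomputable def energy (u : ℂ → ℝ) : ℝ≥0∞ := ∫⁻ z, ENNReal.ofReal (‖fderiv ℝ u z‖ ^ 2)

/-- The capacity of the condenser with the plates `K` and `L`: the infimum of the energies of the
`C¹` functions which are equal to `0` on `K` and to `1` on `L`. -/
noncomputable def capacity (K L : Set ℂ) : ℝ≥0∞ :=
  ⨅ (u : ℂ → ℝ) (_ : ContDiff ℝ 1 u ∧ (∀ z ∈ K, u z = 0) ∧ ∀ z ∈ L, u z = 1), energy u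

/-- The modulus of the domain between `K` and `L` (the extremal distance of `K` and `L`): the inverse
of the capacity. -/
noncomputable def modulus (K L : Set ℂ) : ℝ := (capacity K L).toReal⁻¹

/-- The part of a subset of the Riemann sphere `ℂ ∪ {∞}` which lies in the plane. -/
def finitePart (A : Set (OnePoint ℂ)) : Set ℂ := {z | (z : OnePoint ℂ) ∈ A}

/-- The exponent: `3 / (4 π²) (π² / 9 - arccos² (t / 2))` if `t ≤ 2` and
`3 / (4 π²) (π² / 9 + arcosh² (t / 2))` if `t ≥ 2`. -/
noncomputable def Psi (t : ℝ) : ℝ :=
  3 / (4 * Real.pi ^ 2) *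
    (Real.pi ^ 2 / 9 - Real.arccos (t / 2) ^ 2 + Real.arcosh (max (t / 2) 1) ^ 2)

/-- The generating function of the number of interfaces between `K` and `L` at mesh `ε`. -/
noncomputable def genFun (t ε : ℝ) (K L : Set ℂ) : ℝ :=
  ∫ ω, t ^ changes (near ε K) (near ε L) ω ∂crit

theorem free_iff {ω : Z2.edgeSet → Bool} {p q : Pt} :
    Free ω p q ↔ Pool.Agent.H863R2.NL.Free ω p q := by
  constructor
  · rintro (h | ⟨h0, h1, h2, h3, h4, h5, h6⟩)
    · exact Pool.Agent.H863R2.NL.Free.primal h
    · exact Pool.Agent.H863R2.NL.Free.dual h0 h1 h2 h3 h4 h5 h6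
  · rintro (h | ⟨h0, h1, h2, h3, h4, h5, h6⟩)
    · exact Free.primal h
    · exact Free.dual h0 h1 h2 h3 h4 h5 h6

theorem change_iff {p q : Pt} : Change p q ↔ Pool.Agent.H863R2.NL.Change p q := by
  constructor
  · rintro (h | h)
    · exact Pool.Agent.H863R2.NL.Change.out h
    · exact Pool.Agent.H863R2.NL.Change.back h
  · rintro (h | h)
    · exact Change.out h
    · exact Change.back h

theorem changes_eq (P Q : Set (ℤ × ℤ)) (ω : Z2.edgeSet → Bool) :
    changes P Q ω = Pool.Agent.Y996.NL.NP (H974.opn ω) P Q := by
  refine Pool.Agent.Y996.NL.np_eq (ω := ω) (P := P) (Q := Q) (Rch := Reach ω P) ?_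
    (fun u hu k => Reach.start hu k) (fun k p q h hf => h.free (free_iff.mpr hf))
    (fun k p q h hc => h.change (change_iff.mpr hc))
  intro k p h
  induction h with
  | @start v h k => exact ⟨v, h, Pool.Agent.W819.EN.Ch.refl _ _⟩
  | free _ hpq ih =>
    obtain ⟨u, hu, h'⟩ := ih
    exact ⟨u, hu, h'.rel (Pool.Agent.H863R2.NL.InfAux.free_iff.mp (free_iff.mp hpq))⟩
  | change _ hpq ih =>
    obtain ⟨u, hu, h'⟩ := ih
    exact ⟨u, hu, h'.step (Pool.Agent.H863R2.NL.InfAux.change_iff.mp (change_iff.mp hpq))⟩

/-- `A` and `B` are the two complementary components of a doubly connected domain of the Riemann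
sphere, not smaller than the mesh `ε`: disjoint closed connected sets whose finite parts have two
points at distance at least `ε`. -/
structure Plates (A B : Set (OnePoint ℂ)) (ε : ℝ) : Prop where
  closedA : IsClosed A
  connA : IsConnected A
  closedB : IsClosed B
  connB : IsConnected B
  disj : Disjoint A B
  pos : 0 < ε
  sizeA : ∃ x ∈ finitePart A, ∃ y ∈ finitePart A, ε ≤ dist x y
  sizeB : ∃ x ∈ finitePart B, ∃ y ∈ finitePart B, ε ≤ dist x y

theorem adm {A B : Set (OnePoint ℂ)} {ε : ℝ} (h : Plates A B ε) :
    Pool.Agent.Helper859_NL.Adm A B ε :=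
  ⟨h.closedA, h.connA.isPreconnected, h.closedB, h.connB.isPreconnected, h.disj, h.pos, h.sizeA,
    h.sizeB⟩

theorem ni_eq (A B : Set (OnePoint ℂ)) (ε : ℝ) (ω : Z2.edgeSet → Bool) :
    changes (near ε (finitePart A)) (near ε (finitePart B)) ω =
      Pool.Agent.Helper859_NL.ni A B ε ω := changes_eq _ _ ω

/-- **Fluctuations of the number of interfaces.** `N` is the minimal number of changes of colour of a
path between the two complementary components of a doubly connected domain, `M` its modulus. One
constant `C` serves all domains and all meshes: `|log E (t ^ N) - 2 π Ψ(t) M| ≤ C |log t|` for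
`1/2 ≤ t ≤ 2`, and `|E N - M / √3| ≤ C`; and `(N - M / √3) / √M` is asymptotically normal with
variance `4 / (3 √3) - 1 / π` as `M → ∞`, uniformly in the domain and in the mesh. -/
theorem result : (∃ C : ℝ, ∀ (A B : Set (OnePoint ℂ)) (ε : ℝ), Plates A B ε →
      (∀ t : ℝ, 1 / 2 ≤ t → t ≤ 2 →
        |Real.log (genFun t ε (finitePart A) (finitePart B)) -
          2 * Real.pi * Psi t * modulus (finitePart A) (finitePart B)| ≤ C * |Real.log t|) ∧
      |(∫ ω, (changes (near ε (finitePart A)) (near ε (finitePart B)) ω : ℝ) ∂crit) -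
        modulus (finitePart A) (finitePart B) / √3| ≤ C) ∧
    ∀ (x η : ℝ), 0 < η → ∃ M₀ : ℝ, ∀ (A B : Set (OnePoint ℂ)) (ε : ℝ), Plates A B ε →
      M₀ ≤ modulus (finitePart A) (finitePart B) →
      |crit.real {ω | (changes (near ε (finitePart A)) (near ε (finitePart B)) ω : ℝ) ≤
          modulus (finitePart A) (finitePart B) / √3 +
            x * √(modulus (finitePart A) (finitePart B))} -
        (ProbabilityTheory.gaussianReal 0 (Real.toNNReal (4 / (3 * √3) - 1 / Real.pi))).real
          (Set.Iic x)| ≤ η := by
  refine ⟨?_, ?_⟩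
  · obtain ⟨C1, hC1, h1⟩ := Pool.Agent.Helper859_NL.dom_log Pool.Agent.Helper859_NL.Final.domU
    obtain ⟨C2, hC2, h2⟩ := Pool.Agent.Helper859_NL.dom_mean Pool.Agent.Helper859_NL.Final.domU
      Pool.Agent.Helper859_NL.J18.target.2
    refine ⟨C1 + C2, fun A B ε h => ⟨fun t ht1 ht2 => ?_, ?_⟩⟩
    · have h3 := h1 t ht1 ht2 A B ε (adm h)
      unfold genFun
      simp only [ni_eq]
      refine le_trans h3 ?_
      exact mul_le_mul_of_nonneg_right (by linarith) (abs_nonneg _)
    · have h3 := h2 A B ε (adm h)
      simp only [ni_eq]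
      exact le_trans h3 (by linarith)
  · intro x η hη
    obtain ⟨M₀, h0⟩ := Pool.Agent.Helper859_NL.dom_clt Pool.Agent.Helper859_NL.Final.domU
      Pool.Agent.Helper859_NL.J18.target.2 Pool.Agent.Helper859_NL.Final.curt x η hη
    refine ⟨M₀, fun A B ε h hM => ?_⟩
    simp only [ni_eq]
    exact h0 A B ε (adm h) hM

end Pool.Agent.Results.MP_35f495_pr.InterfaceFluctuations
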