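import Mathlib
import Pool.Agent.Helper859_NL.FinalK

/-!
Critical bond percolation on the square lattice (`p = 1/2`): the numbers of nested layers around the
points of the plane form, in the sense of finite-dimensional laws, a log-correlated Gaussian field,
with exact constants and uniformly in the positions of the points.

Colour the open edges and their endpoints in one colour, the dual edges which cross the closed edges
and their endpoints in the other colour. `layers n v` is the minimal number of changes of colour of a
path from the vertex `v` to the sup distance `n` of `v`, i.e. the number of nested alternating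
(open / dual-open) layers around `v` in the box of radius `n`; their boundaries are the interfaces.

For vertices `v 1, ..., v k` at mutual sup distances at most `n` the vector of the numbers
`layers n (v i)` is asymptotically Gaussian with means `log n / (2 √3 π)` and covariances
`σ² log (n / max (|v i - v j|, 1))`, where `σ² = 2 / (3 √3 π) - 1 / (2 π²)`: for all coefficients
`a i` of absolute value at most `1` the distribution of `∑ a i layers n (v i)` is close to the
corresponding Gaussian one as soon as its variance is large, uniformly in the `a i`, the `v i` and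
`n`. In particular (`k = 2`) the difference of the numbers around two points at distance `d` is
asymptotically normal with variance `2 σ² log d` as `d → ∞`, uniformly in `n ≥ d`.
-/

set_option autoImplicit false

namespace Pool.Agent.Results.MP_35f495_pr.LogCorrelatedLayers

open MeasureTheory

/-- The square lattice: two points of `ℤ²` are adjacent when they differ by one in exactly one
coordinate. -/
def Z2 : SimpleGraph (ℤ × ℤ) where
  Adj u v := |u.1 - v.1| + |u.2 - v.2| = 1
  symm := ⟨fun u v h => by rw [abs_sub_comm v.1, abs_sub_comm v.2]; exact h⟩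
  loopless := ⟨fun u h => by simp at h⟩

/-- Critical bond percolation: every edge of the square lattice is open (`true`) with
probability `1/2`, independently of the other edges. -/
noncomputable def crit : Measure (Z2.edgeSet → Bool) :=
  Measure.infinitePi (fun _ => ProbabilityTheory.bernoulliMeasure true false
    ⟨1/2, by norm_num, by norm_num⟩)

/-- The graph of the open edges. -/
def openGraph (ω : Z2.edgeSet → Bool) : SimpleGraph (ℤ × ℤ) :=
  SimpleGraph.fromEdgeSet {e | ∃ h : e ∈ Z2.edgeSet, ω ⟨e, h⟩ = true}

/-- The points: `((x, y), true)` is the vertex `(x, y)` of `ℤ²` and `((x, y), false)` is the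
vertex `(x + 1/2, y + 1/2)` of the dual lattice. -/
abbrev Pt := (ℤ × ℤ) × Bool

/-- The vertex `v` of `ℤ²` is one of the four corners of the square of the dual vertex `w`. -/
def Corner (v w : ℤ × ℤ) : Prop := (v.1 = w.1 ∨ v.1 = w.1 + 1) ∧ (v.2 = w.2 ∨ v.2 = w.2 + 1)

/-- Moves without change of colour: along an open edge, or from a dual vertex to a neighbouring
dual vertex across a closed edge (the edge between the two common corners of their squares). -/
inductive Free (ω : Z2.edgeSet → Bool) : Pt → Pt → Prop
  | primal {u v : ℤ × ℤ} (h : (openGraph ω).Adj u v) : Free ω (u, true) (v, true)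
  | dual {u v x y : ℤ × ℤ} (huv : u ≠ v) (hxy : Z2.Adj x y) (hclosed : ¬ (openGraph ω).Adj x y)
      (h1 : Corner x u) (h2 : Corner y u) (h3 : Corner x v) (h4 : Corner y v) :
      Free ω (u, false) (v, false)

/-- Change of colour: from a vertex to the dual vertex of one of the four squares around it, or
back. -/
inductive Change : Pt → Pt → Prop
  | out {v w : ℤ × ℤ} (h : Corner v w) : Change (v, true) (w, false)
  | back {v w : ℤ × ℤ} (h : Corner v w) : Change (w, false) (v, true)

/-- The point `p` can be reached from the vertex `v` with at most `k` changes of colour. -/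
inductive Reach (ω : Z2.edgeSet → Bool) (v : ℤ × ℤ) : ℕ → Pt → Prop
  | start (k : ℕ) : Reach ω v k (v, true)
  | free {k : ℕ} {p q : Pt} (h : Reach ω v k p) (hpq : Free ω p q) : Reach ω v k q
  | change {k : ℕ} {p q : Pt} (h : Reach ω v k p) (hpq : Change p q) : Reach ω v (k + 1) q

/-- Twice the sup distance between the point `p` and the vertex `v`. -/
def dist2 (v : ℤ × ℤ) (p : Pt) : ℤ :=
  max |2 * (p.1.1 - v.1) + (if p.2 then 0 else 1)| |2 * (p.1.2 - v.2) + (if p.2 then 0 else 1)|

/-- The number of nested layers around `v` in the box of radius `n` centred at `v`: the minimal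
number of changes of colour of a path from `v` to the sup distance `n` of `v`. -/
noncomputable def layers (n : ℕ) (v : ℤ × ℤ) (ω : Z2.edgeSet → Bool) : ℕ :=
  sInf {k | ∃ p : Pt, 2 * (n : ℤ) ≤ dist2 v p ∧ Reach ω v k p}

/-- The number of scales common to the points `u` and `w`: `log (n / |u - w|)`, and `log n` if
`u = w`. -/
noncomputable def scales (n : ℕ) (u w : ℤ × ℤ) : ℝ :=
  Real.log ((n : ℝ) / max ((max |u.1 - w.1| |u.2 - w.2| : ℤ) : ℝ) 1)

/-- The asymptotic variance of `∑ a i N (v i)`: the covariance of the numbers of layers around `u`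
and `w` is `σ² scales n u w`, with `σ² = 2 / (3 √3 π) - 1 / (2 π²)`. -/
noncomputable def variance {k : ℕ} (a : Fin k → ℝ) (v : Fin k → ℤ × ℤ) (n : ℕ) : ℝ :=
  (2 / (3 * √3 * Real.pi) - 1 / (2 * Real.pi ^ 2)) *
    ∑ i, ∑ j, a i * a j * scales n (v i) (v j)

theorem free_iff {ω : Z2.edgeSet → Bool} {p q : Pt} :
    Free ω p q ↔ Pool.Agent.H863R2.NL.Free ω p q := by
  constructor
  · rintro (h | ⟨h0, h1, h2, h3, h4, h5, h6⟩)
    · exact Pool.Agent.H863R2.NL.Free.primal h
    · exact Pool.Agent.H863R2.NL.Free.dual h0 h1 h2 h3 h4 h5 h6
  · rintro (h | ⟨h0, h1, h2, h3, h4, h5, h6⟩)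
    · exact Free.primal h
    · exact Free.dual h0 h1 h2 h3 h4 h5 h6

theorem change_iff {p q : Pt} : Change p q ↔ Pool.Agent.H863R2.NL.Change p q := by
  constructor
  · rintro (h | h)
    · exact Pool.Agent.H863R2.NL.Change.out h
    · exact Pool.Agent.H863R2.NL.Change.back h
  · rintro (h | h)
    · exact Change.out h
    · exact Change.back h

theorem reach_iff {ω : Z2.edgeSet → Bool} {v : ℤ × ℤ} {k : ℕ} {p : Pt} :
    Reach ω v k p ↔ Pool.Agent.W819.EN.ReachFrom ω v k p := by
  constructor
  · intro h
    induction h with
    | start k => exact Pool.Agent.W819.EN.ReachFrom.start k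
    | free _ h ih => exact ih.free (free_iff.1 h)
    | change _ h ih => exact ih.change (change_iff.1 h)
  · intro h
    induction h with
    | start k => exact Reach.start k
    | free _ h ih => exact ih.free (free_iff.2 h)
    | change _ h ih => exact ih.change (change_iff.2 h)

theorem layers_eq (n : ℕ) (v : ℤ × ℤ) (ω : Z2.edgeSet → Bool) :
    layers n v ω = Pool.Agent.W819.EN.layers n v ω := by
  unfold layers Pool.Agent.W819.EN.layers
  simp only [reach_iff]
  rfl

theorem variance_eq {k : ℕ} (a : Fin k → ℝ) (v : Fin k → ℤ × ℤ) (n : ℕ) :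
    variance a v n = Pool.Agent.Helper859_NL.vk a v n := by
  unfold variance Pool.Agent.Helper859_NL.vk Pool.Agent.Helper859_NL.vM scales
    Pool.Agent.Helper859_NL.gg Pool.Agent.Helper859_NL.ds
  simp only [Nat.cast_one]

/-- **The numbers of layers are log-correlated and Gaussian.** For all `k`, `x` and `η > 0` there is
`V₀` such that for all coefficients `a i` of absolute value at most `1`, all `n ≥ 1` and all vertices
`v i` at distances at most `n` with `variance a v n ≥ V₀`, the probability that `∑ a i N (v i)` is at
most its asymptotic mean plus `x` times its asymptotic standard deviation differs from the standard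
normal distribution function at `x` by at most `η`. -/
theorem result (k : ℕ) (x η : ℝ) (hη : 0 < η) : ∃ V₀ : ℝ, ∀ (a : Fin k → ℝ)
    (v : Fin k → ℤ × ℤ) (n : ℕ), (∀ i, |a i| ≤ 1) → 1 ≤ n →
    (∀ i j, max |(v i).1 - (v j).1| |(v i).2 - (v j).2| ≤ n) → V₀ ≤ variance a v n →
    |crit.real {ω | ∑ i, a i * (layers n (v i) ω : ℝ) ≤
        (∑ i, a i) * (Real.log n / (2 * √3 * Real.pi)) + x * √(variance a v n)} -
      (ProbabilityTheory.gaussianReal 0 1).real (Set.Iic x)| ≤ η := by
  obtain ⟨V₀, h⟩ := Pool.Agent.Helper859_NL.FinalK.joint k x η hη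
  refine ⟨V₀, fun a v n ha hn hd hV => ?_⟩
  rw [variance_eq] at hV ⊢
  have h1 := h a v n ha hn hd hV
  simp only [layers_eq]
  have e : (∑ i, a i) * (Real.log n / (2 * √3 * Real.pi)) =
      (∑ i, a i) * Pool.Agent.Helper859_NL.cM * Real.log n := by
    unfold Pool.Agent.Helper859_NL.cM
    ring
  rw [e]
  exact h1

end Pool.Agent.Results.MP_35f495_pr.LogCorrelatedLayers
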